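import Mathlib
import Pool.Agent.V11310.CL.Open

set_option autoImplicit false

/-!
# The SHGH conjecture for the closure of the known classes under collisions

`Reached N0 d w` (`Pool.Agent.V11310.CL.Reached`): the multiset of the multiplicities `w` belongs, in
degree `d`, to the smallest class of multisets of multiplicities with one of the two signs (no curves,
independent conditions) which contains the comparable, the large and the good classes (`Base`) and is
closed under collisions (a point of multiplicity `μ` may be replaced by points `M'` if `M'` is in the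
class in degree `μ - 1`), quadratic transformations, doubling (four points of multiplicity `m` for one
point of the multiplicities `2 m` and `2 m + 1`), adding or removing points and changing the degree.

If `(d; w)` is reached, or (`n ≥ 4`) finitely many reflections carry it to a standard class which is
reached, then at general points the linear system has the expected dimension. For every `(d; w)`,
`n ≥ 4`, and general points: if the dimension is not the expected one, then some `(-1)`-curve `C` has
`C D ≤ -2` or, after the removal of disjoint `(-1)`-curves, each taken once, and finitely many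
quadratic transformations, the class becomes a standard class whose dimension is not the expected one
either and which is not reached. For `w i + w j + w k < d` (Gimigliano's form of the conjecture) the
class itself is not reached.
-/

namespace Pool.Agent.Results.MP_6e81d8_ag.CollisionClosure

open MvPolynomial Pool.Agent.TH167.SHDefs
open Pool.Agent.Y536.SH (Standard)
open Pool.Agent.V11310.CL

/-- The dimension of the linear system of the plane curves of degree `d` with multiplicities at
least `w i` at the points `P i`. -/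
noncomputable def dimension {n : ℕ} (P : Fin n → Fin 2 → ℂ) (d : ℕ) (w : Fin n → ℕ) : ℤ :=
  (Module.finrank ℂ ↥(sys P d w) : ℤ) - 1

/-- The virtual dimension. -/
def vdim {n : ℕ} (d : ℕ) (w : Fin n → ℕ) : ℤ :=
  ((d + 2).choose 2 : ℤ) - 1 - ∑ i, ((w i + 1).choose 2 : ℤ)

/-- The property holds for all `n`-tuples of points outside some hypersurface. -/
def ForGeneral {n : ℕ} (p : (Fin n → Fin 2 → ℂ) → Prop) : Prop :=
  ∃ F : MvPolynomial (Fin n × Fin 2) ℂ, F ≠ 0 ∧ ∀ P : Fin n → Fin 2 → ℂ,
    eval (fun ij : Fin n × Fin 2 => P ij.1 ij.2) F ≠ 0 → p P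

theorem dim_of {n : ℕ} {P : Fin n → Fin 2 → ℂ} {d : ℕ} {w : Fin n → ℕ}
    (h : Pool.Agent.H932R3.ExpDim ℂ w P d) : dimension P d w = max (vdim d w) (-1) := by
  have h1 : Module.finrank ℂ ↥(sys P d w) =
      Nat.choose (d + 2) 2 - ∑ i, Nat.choose (w i + 1) 2 := h
  have h2 : ∑ i, ((w i + 1).choose 2 : ℤ) = ((∑ i, Nat.choose (w i + 1) 2 : ℕ) : ℤ) := by
    push_cast
    rfl
  unfold dimension vdim
  rw [h1, h2]
  omega

theorem special_of_ne {n : ℕ} {P : Fin n → Fin 2 → ℂ} {d : ℕ} {w : Fin n → ℕ} :
    dimension P d w ≠ max (vdim d w) (-1) ↔ Pool.Agent.TH167.SH.Special P d w := by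
  have h : Pool.Agent.TH167.SH.Special P d w ↔ (Module.finrank ℂ ↥(sys P d w) : ℤ) ≠
      max 0 (((d + 2).choose 2 : ℤ) - ∑ i, ((w i + 1).choose 2 : ℤ)) := by
    unfold Pool.Agent.TH167.SH.Special
    rw [Pool.Agent.TH167.SH.sys_eq]
    exact Iff.rfl
  rw [h]
  unfold dimension vdim
  constructor
  · intro h1 h2
    apply h1
    rw [h2]
    omega
  · intro h1 h2
    apply h1
    omega

theorem result : ∃ N0 : ℕ,
    (∀ (n d : ℕ) (w : Fin n → ℕ), (Base N0 d w → Reached N0 d w) ∧
      (Reached N0 d w → ForGeneral fun P => dimension P d w = max (vdim d w) (-1))) ∧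
    ∀ n : ℕ, 4 ≤ n → ∀ (d : ℕ) (w : Fin n → ℕ), ForGeneral fun P =>
      ((∃ (d' : ℕ) (w' : Fin n → ℕ), Carries d w d' w' ∧ Standard d' w' ∧ Reached N0 d' w') →
        dimension P d w = max (vdim d w) (-1)) ∧
      (dimension P d w ≠ max (vdim d w) (-1) →
        (∃ (G : MvPolynomial (Fin 3) ℂ) (e : ℕ) (u : Fin n → ℕ), MinusOne P G e u ∧
          inter d w e u ≤ -2) ∨
        ∃ (d'' : ℕ) (w'' : Fin n → ℕ) (k : ℕ) (G : Fin k → MvPolynomial (Fin 3) ℂ)
          (e : Fin k → ℕ) (u : Fin k → Fin n → ℕ) (d' : ℕ) (w' : Fin n → ℕ),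
          Decomp P d w d'' w'' G e u (fun _ => 1) ∧
          Relation.ReflTransGen Quadratic (d'', w'') (d', w') ∧ Standard d' w' ∧
          dimension P d' w' = dimension P d w ∧ dimension P d' w' ≠ max (vdim d' w') (-1) ∧
          ¬ Reached N0 d' w') := by
  obtain ⟨N0, hN0⟩ := Pool.Agent.Y939.NC.reg_exp
  refine ⟨N0, fun n d w => ⟨reached_of_base, fun h => ?_⟩, fun n hn d w => ?_⟩
  · obtain ⟨F, hF, hF'⟩ := Pool.Agent.TH442.NF.to_open (d := d) (w := w)
      fun {_ _ _ P} hP => reached_exp hN0 h hP
    refine ⟨F.map (algebraMap ℚ ℂ), Pool.Agent.H932R3.map_ne_zero_of hF, fun P hP => ?_⟩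
    rw [MvPolynomial.eval_map] at hP
    exact dim_of (hF' (L := ℂ) P hP)
  obtain ⟨F1, hF1, hF1'⟩ : ForGeneral fun P : Fin n → Fin 2 → ℂ =>
      Covered N0 d w → dimension P d w = max (vdim d w) (-1) := by
    by_cases h : Covered N0 d w
    · obtain ⟨F, hF, hF'⟩ := covered_open hN0 hn h
      exact ⟨F, hF, fun P hP _ => dim_of (hF' P hP)⟩
    · exact ⟨1, one_ne_zero, fun P _ h' => absurd h' h⟩
  obtain ⟨r, rfl⟩ : ∃ r, n = r + 4 := ⟨n - 4, by omega⟩
  obtain ⟨F, hF, hF'⟩ := Pool.Agent.Y536.SH.hh_full
    (Q := fun d' w' => Reached N0 d' w')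
    (fun hP d1 w1 hr hG => reached_exp hN0 hG hP) d w
  refine ⟨F1 * F.map (algebraMap ℚ ℂ),
    mul_ne_zero hF1 (Pool.Agent.TH167.SH.map_ne hF), fun P hP => ?_⟩
  rw [map_mul] at hP
  have hP1 := left_ne_zero_of_mul hP
  refine ⟨fun h => hF1' P hP1 (Or.inr h), fun hs => ?_⟩
  have hP2 := right_ne_zero_of_mul hP
  rw [Pool.Agent.TH167.SH.evP_eval] at hP2
  have hsp := special_of_ne.1 hs
  rcases hF' ℂ P hP2 hsp with h | ⟨d', w', k, C, e, u, N, d1, w1, h1, h2, h3, h4, h5, h6⟩
  · left
    exact Pool.Agent.TH167.SH.mspecial_curve ((Pool.Agent.TH167.SH.mspecial_conv P d w).2 h)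
  · by_cases hN : ∃ a, 2 ≤ N a
    · left
      obtain ⟨a, ha⟩ := hN
      refine ⟨C a, e a, u a, Pool.Agent.TH167.SH.minusOne_iff.2 (h1.exc a), ?_⟩
      rw [Pool.Agent.TH167.SH.inter_eq, h1.neg a]
      omega
    · right
      push Not at hN
      have hN1 : N = fun _ => 1 := by
        funext a
        have := h1.pos a
        have := hN a
        omega
      subst hN1
      refine ⟨d', w', k, C, e, u, d1, w1, Pool.Agent.TH167.SH.decomp_iff.2 h1,
        Pool.Agent.TH167.SH.chain_conv h2, h3, ?_, special_of_ne.2 h4, h6⟩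
      unfold dimension
      rw [Pool.Agent.TH167.SH.sys_eq, Pool.Agent.TH167.SH.sys_eq, h5]

end Pool.Agent.Results.MP_6e81d8_ag.CollisionClosure
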