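import Pool.Agent.V11263.SH.Comp
import Pool.Agent.Results.MP_6e81d8_ag.ExplicitVeryGeneralPoints

set_option autoImplicit false

/-!
# The SHGH conjecture for classes comparable with a regular vector: very general points, ONE explicit
surface, and all fields

Let `X` be the blow-up of the complex projective plane at `r` very general points (the `2 r` affine
coordinates are algebraically independent over `ℚ`), or of the real plane at the `r` points with the
affine coordinates `exp (2 ^ (k / 2 r))`, `k < 2 r`. Every class `(d; w)` which is comparable with a
regular vector, or (`r ≥ 4`) carried by finitely many reflections to a standard class which is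
comparable, large or good, has `dim = max (vdim, -1)` on `X`. Moreover for every such class there is a
polynomial `Φ ≠ 0` with integral coefficients of explicitly bounded degree and height such that
`dim = max (vdim, -1)` at all `r` points `Y` over any field with `Φ(Y) ≠ 0`.

A vector `v` of multiplicities on `k` points is regular in degree `d` (`RegularAt`) if it is one of
the vectors `Regular` of `Pool.Agent.Y939.NC`, or `k ≥ 10`, all its entries are `m` or `m + 1`, and
`m + 1 ≤ k - 6 √k + 11` or `k` is a square or `2 d + 3 - √k - 2 (∑ v) / √k` is outside an interval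
around zero of length less than two, or `k ≥ 10` and `(d; v)` is in one of the windows `Window`
(arbitrary entries). A class `(d; w)` is `Comparable` if, for a vector `v` regular in degree `d` on
some `k` of the points, either `w ≥ v` there and `χ (d; v) ≤ 0` (no condition at the other points), or
`w ≤ v` there, `w ≤ 1` at the other points, and `χ (d; v) ≥ 0` or `w = v` there.
-/

namespace Pool.Agent.Results.MP_6e81d8_ag.ComparableVeryGeneral

open Pool.Agent.Results.MP_6e81d8_ag.ExplicitVeryGeneralPoints
  (dimension vdim Controls realPoints value conds Carries controls_of dim_of)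
open Pool.Agent.Y536.SH (Standard)
open Pool.Agent.V11263.SH (Comparable Known)

/-- The class is comparable with a regular vector, or there are at least four points and finitely many
reflections carry it to a standard class which is comparable, large or good. -/
def Settled (N0 : ℕ) {n : ℕ} (d : ℕ) (w : Fin n → ℕ) : Prop :=
  Comparable N0 d w ∨ (4 ≤ n ∧ ∃ (d' : ℕ) (w' : Fin n → ℕ), Carries d w d' w' ∧
    Standard d' w' ∧ Known N0 d' w')

/-- **Main result.** There is `N0` such that every settled class has the expected dimension at all
points of the complex plane with algebraically independent coordinates, at the explicit points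
`realPoints`, and at all points over any field outside an explicitly bounded hypersurface with
integral coefficients. -/
theorem result : ∃ N0 : ℕ, ∀ n : ℕ, 1 ≤ n → ∀ (d : ℕ) (w : Fin n → ℕ), Settled N0 d w →
    (∀ P : Fin n → Fin 2 → ℂ, AlgebraicIndependent ℚ (fun ij : Fin n × Fin 2 => P ij.1 ij.2) →
      dimension P d w = max (vdim d w) (-1)) ∧
    dimension (realPoints n) d w = max (vdim d w) (-1) ∧
    ∃ Φ : MvPolynomial (Fin n × Fin 2) ℤ,
      Controls Φ (min ((d + 2).choose 2) (conds w) * d)
        ((min ((d + 2).choose 2) (conds w)).factorial *
          2 ^ (min ((d + 2).choose 2) (conds w) * d)) ∧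
      ∀ (L : Type) [Field L] (Y : Fin n → Fin 2 → L), value Φ Y ≠ 0 →
        dimension Y d w = max (vdim d w) (-1) := by
  obtain ⟨N0, hN0⟩ := Pool.Agent.Y939.NC.reg_exp
  refine ⟨N0, fun n hn d w hw => ?_⟩
  have gen : ∀ {K : Type} [Field K] [CharZero K] {P : Fin n → Fin 2 → K},
      AlgebraicIndependent ℚ (fun ij : Fin n × Fin 2 => P ij.1 ij.2) →
      Pool.Agent.Y210.EF.ED K w P d := by
    intro K _ _ P hP
    rcases hw with h | ⟨hn4, d', w', hcar, hs, hG⟩
    · exact Pool.Agent.V11263.SH.comparable_exp hN0 h hP
    · exact Pool.Agent.TH442.NF.up_enef hP hcar (Pool.Agent.TH442.NF.enef_of_std hn4 P hs)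
        (Pool.Agent.V11263.SH.known_exp hN0 hn4 hs hG hP)
  obtain ⟨K, _, _, P, hP⟩ := Pool.Agent.TH442.NF.exists_generic n
  obtain ⟨Φ, h1, h2, h3, h4⟩ := Pool.Agent.Y210.EF.one_ed (gen hP)
  rw [← pow_mul, mul_comm d] at h3
  have key : ∀ (L : Type) [Field L] (Y : Fin n → Fin 2 → L), value Φ Y ≠ 0 →
      dimension Y d w = max (vdim d w) (-1) := fun L _ Y hY =>
    dim_of (h4 L Y (by rw [← Pool.Agent.Y210.EF.val_eq]; exact hY))
  exact ⟨fun Q hQ => dim_of (gen hQ), key ℝ (realPoints n) (Pool.Agent.Y210.EF.val_real hn h1),
    Φ, controls_of h1 h2 h3, key⟩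

end Pool.Agent.Results.MP_6e81d8_ag.ComparableVeryGeneral
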